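import Pool.Agent.Work.MP_f5610a_lc.Main

-- merged part: Pool.Agent.Work.MP_f5610a_lc.Hedge.Holes
section
namespace Pool.Agent.Work.MP_f5610a_lc.Hedge

open Pool.Agent.Lib.Cx Pool.Agent.Work.MP_f5610a_lc

/-- Colour `c` (a literal: variable `c / 2`, positive when `c` is even) lies in the `j`-th set:
the two literals of variable `j` for `j < n`, the literals of clause `j - n` otherwise. -/
def InF (φ : CNF) (n j c : ℕ) : Prop :=
  if j < n then c / 2 = j else (c / 2, decide (c % 2 = 0)) ∈ φ.getD (j - n) []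

instance (φ : CNF) (n j c : ℕ) : Decidable (InF φ n j c) := by unfold InF; infer_instance

/-- The set of colours carried by layer `t` of branch `j`. -/
def Ty (φ : CNF) (n a j t c : ℕ) : Prop := InF φ n j c ↔ (a + t) % 2 = 0

instance (φ : CNF) (n a j t c : ℕ) : Decidable (Ty φ n a j t c) := by unfold Ty; infer_instance

/-- Vertices that are not isolated dummies. -/
def Act (φ : CNF) (n a j t c : ℕ) : Prop :=
  if t = 0 then j = 0 else if t = a + 1 then j = 0 ∧ c % 2 = 0 else if t = a then c = 0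
  else Ty φ n a j t c

instance (φ : CNF) (n a j t c : ℕ) : Decidable (Act φ n a j t c) := by unfold Act; infer_instance

/-- Adjacency between a vertex `(j, t, c)` and a vertex of branch `j'` one layer higher. -/
def Up (φ : CNF) (n a j t c j' : ℕ) : Prop :=
  if t = 0 then Ty φ n a j' 0 c else if t = a then True else j = j'

instance (φ : CNF) (n a j t c j' : ℕ) : Decidable (Up φ n a j t c j') := by
  unfold Up; infer_instance

/-- Adjacency of distinct vertices. -/
def R (φ : CNF) (n a j t c j' t' c' : ℕ) : Prop :=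
  Act φ n a j t c ∧ Act φ n a j' t' c' ∧
    ((t = t' ∧ j = j') ∨ (t' = t + 1 ∧ Up φ n a j t c j') ∨ (t = t' + 1 ∧ Up φ n a j' t' c' j))

instance (φ : CNF) (n a j t c j' t' c' : ℕ) : Decidable (R φ n a j t c j' t' c') := by
  unfold R; infer_instance

theorem R.symm {φ : CNF} {n a j t c j' t' c' : ℕ} (h : R φ n a j t c j' t' c') :
    R φ n a j' t' c' j t c := by
  obtain ⟨h1, h2, h3⟩ := h
  refine ⟨h2, h1, ?_⟩
  rcases h3 with h | h | h
  · exact Or.inl ⟨h.1.symm, h.2.symm⟩
  · exact Or.inr (Or.inr h)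
  · exact Or.inr (Or.inl h)

/-- Adjacency on vertex numbers. -/
def A (φ : CNF) (n a i i' : ℕ) : Prop :=
  R φ n a (i / (2 * n) / (a + 2)) (i / (2 * n) % (a + 2)) (i % (2 * n))
    (i' / (2 * n) / (a + 2)) (i' / (2 * n) % (a + 2)) (i' % (2 * n))

instance (φ : CNF) (n a i i' : ℕ) : Decidable (A φ n a i i') := by unfold A; infer_instance

/-- The graph of the reduction. -/
def gr (φ : CNF) (n a N : ℕ) : SimpleGraph (Fin N) where
  Adj i j := i.val ≠ j.val ∧ A φ n a i j
  symm := ⟨fun _ _ h => ⟨h.1.symm, R.symm h.2⟩⟩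
  loopless := ⟨fun _ h => h.1 rfl⟩

/-! ### Heights along a hole -/

theorem heights {a : ℕ} (h : ℕ → ℕ) (n1 : ∀ s, h s ≤ a + 1)
    (n2 : ∀ s, h (s + 1) = h s ∨ h (s + 1) = h s + 1 ∨ h s = h (s + 1) + 1)
    (n3 : ∀ s, h (s + 1) = h s → h s = 0)
    (n4 : ∀ s, 1 ≤ h (s + 1) → h (s + 1) ≤ a → h s ≠ h (s + 2))
    (n5 : ∀ s, h s = 0 → h (s + 2) ≠ 0) :
    ∃ s D, (D = 2 * a + 2 ∨ D = 2 * a + 3) ∧ h s = a + 1 ∧ h (s + D) = a + 1 ∧
      ∀ i, 0 < i → i < D → h (s + i) ≤ a := by
  have climb : ∀ p, h p = 0 → h (p + 1) = 1 → ∀ i ≤ a, h (p + i) = i ∧ h (p + i + 1) = i + 1 := by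
    intro p h0 h1 i
    induction i with
    | zero => exact fun _ => ⟨h0, h1⟩
    | succ i ih =>
      intro hi
      obtain ⟨e1, e2⟩ := ih (by omega)
      refine ⟨e2, ?_⟩
      have a2 := n2 (p + i + 1)
      have a3 := n3 (p + i + 1)
      have a4 := n4 (p + i)
      change h (p + i + 2) = i + 1 + 1
      change h (p + i + 2) = _ ∨ h (p + i + 2) = _ ∨ _ = h (p + i + 2) + 1 at a2
      change h (p + i + 2) = _ → _ at a3
      omega
  have desc : ∀ p, h p = h (p + 1) + 1 → ∀ i ≤ h (p + 1),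
      h (p + i) + i = h p ∧ h (p + i + 1) + i = h (p + 1) := by
    intro p h0 i
    induction i with
    | zero => exact fun _ => ⟨rfl, rfl⟩
    | succ i ih =>
      intro hi
      obtain ⟨e1, e2⟩ := ih (by omega)
      have a1 := n1 p
      have a2 := n2 (p + i + 1)
      have a3 := n3 (p + i + 1)
      have a4 := n4 (p + i)
      change h (p + i + 1) + (i + 1) = _ ∧ h (p + i + 2) + (i + 1) = _
      change h (p + i + 2) = _ ∨ h (p + i + 2) = _ ∨ _ = h (p + i + 2) + 1 at a2
      change h (p + i + 2) = _ → _ at a3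
      omega
  have turn : ∀ p, h p = 0 → ∃ d, (d = 0 ∨ d = 1) ∧ h (p + d) = 0 ∧ h (p + d + 1) = 1 := by
    intro p h0
    have a2 := n2 p
    have b2 := n2 (p + 1)
    have a5 := n5 p h0
    change h (p + 2) = _ ∨ h (p + 2) = _ ∨ _ = h (p + 2) + 1 at b2
    by_cases e : h (p + 1) = 0
    · exact ⟨1, Or.inr rfl, e, by change h (p + 2) = 1; omega⟩
    · exact ⟨0, Or.inl rfl, h0, by change h (p + 1) = 1; omega⟩
  have top0 : ∀ p, h p = 0 → ∃ s, h s = a + 1 := fun p h0 => by
    obtain ⟨d, -, e1, e2⟩ := turn p h0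
    exact ⟨_, (climb _ e1 e2 a le_rfl).2⟩
  have top : ∃ s, h s = a + 1 := by
    by_contra hne
    push Not at hne
    have pos : ∀ p, h p ≠ 0 := fun p h0 => by
      obtain ⟨s, hs⟩ := top0 p h0
      exact hne s hs
    have nodesc : ∀ p, h p ≠ h (p + 1) + 1 := fun p hp => by
      have := (desc p hp _ le_rfl).2
      exact pos (p + h (p + 1) + 1) (by omega)
    have up : ∀ p, p ≤ h p := by
      intro p
      induction p with
      | zero => omega
      | succ p ih =>
        have := n2 p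
        have := n3 p
        have := pos p
        have := nodesc p
        omega
    have := up (a + 2)
    have := n1 (a + 2)
    omega
  obtain ⟨s, hs⟩ := top
  have hs1 : h (s + 1) = a := by
    have := n1 (s + 1)
    have := n2 s
    have := n3 s
    omega
  have hd := desc s (by omega)
  rw [hs1] at hd
  have hz : h (s + a + 1) = 0 := by have := (hd a le_rfl).2; omega
  obtain ⟨d, hd01, e1, e2⟩ := turn _ hz
  have hc := climb _ e1 e2
  refine ⟨s, 2 * a + 2 + d, by omega, hs, ?_, fun i hi0 hi => ?_⟩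
  · have := (hc a le_rfl).2
    rwa [show s + a + 1 + d + a + 1 = s + (2 * a + 2 + d) by omega] at this
  · by_cases c1 : i ≤ a + 1
    · have := (hd (i - 1) (by omega)).2
      rw [show s + (i - 1) + 1 = s + i by omega] at this
      omega
    · have := (hc (i - (a + 1 + d)) (by omega)).1
      rw [show s + a + 1 + d + (i - (a + 1 + d)) = s + i by omega] at this
      omega

theorem R.same {φ : CNF} {n a j t c j' t' c' j'' t'' c'' : ℕ} (ha : 1 ≤ a)
    (h1 : R φ n a j t c j' t' c') (h2 : R φ n a j' t' c' j'' t'' c'')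
    (h3 : ¬R φ n a j t c j'' t'' c'') (b : t ≤ a + 1) (b' : t' ≤ a + 1) (b'' : t'' ≤ a + 1) :
    (t' = t → t = 0) ∧ (1 ≤ t' → t' ≤ a → t ≠ t'') ∧ (t = 0 → t'' ≠ 0) := by
  obtain ⟨a1, a2, r1⟩ := h1
  obtain ⟨-, a3, r2⟩ := h2
  unfold R at h3
  simp only [a1, a3, true_and] at h3
  push Not at h3
  obtain ⟨k1, k2, k3⟩ := h3
  refine ⟨fun e => ?_, fun l1 l2 e => ?_, fun e e' => ?_⟩
  · subst e
    by_contra h0
    have ej : j = j' := by rcases r1 with h | h | h <;> first | exact h.2 | omega
    subst ej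
    rcases r2 with h | h | h
    · exact k1 h.1 h.2
    · refine k2 h.1 ?_
      have := h.2
      unfold Up at this ⊢
      rwa [if_neg h0] at this ⊢
    · exact k3 h.1 h.2
  · subst e
    refine k1 rfl ?_
    unfold Act at a1 a3
    unfold Up at r1 r2
    by_cases c0 : t = 0
    · rw [if_pos c0] at a1 a3; omega
    · by_cases c1 : t = a + 1
      · rw [if_neg c0, if_pos c1] at a1 a3; omega
      · by_cases et : t' = t
        · subst et
          have e1 : j = j' := by rcases r1 with h | h | h <;> first | exact h.2 | omega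
          have e2 : j' = j'' := by rcases r2 with h | h | h <;> first | exact h.2 | omega
          omega
        · rcases r1 with h | h | h
          · omega
          · rcases r2 with g | g | g
            · omega
            · omega
            · have x1 := h.2
              have x2 := g.2
              rw [if_neg c0, if_neg (by omega)] at x1 x2
              omega
          · rcases r2 with g | g | g
            · omega
            · have x1 := h.2
              have x2 := g.2
              rw [if_neg (by omega), if_neg (by omega)] at x1 x2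
              omega
            · omega
  · subst e e'
    unfold Act at a1 a3
    rw [if_pos rfl] at a1 a3
    exact k1 rfl (by omega)

theorem gr_holes {φ : CNF} {n a N : ℕ} (ha : 1 ≤ a) (m : ℕ) (hm : 4 ≤ m) (h1 : m ≠ 2 * a + 2)
    (h2 : m ≠ 2 * a + 3) : IsEmpty (SimpleGraph.cycleGraph m ↪g gr φ n a N) := by
  obtain ⟨k, rfl⟩ : ∃ k, m = k + 4 := ⟨m - 4, by omega⟩
  refine ⟨fun e => ?_⟩
  let z : ℕ → Fin (k + 4) := fun t => ⟨t % (k + 4), Nat.mod_lt _ (by omega)⟩
  have hz : ∀ t, z (t + 1) = z t + 1 := fun t => by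
    apply Fin.ext
    simp [z, Fin.val_add]
  have zinj : ∀ s D, z s = z (s + D) → (k + 4) ∣ D := fun s D h => by
    have h' : s ≡ s + D [MOD (k + 4)] := congrArg Fin.val h
    have := (Nat.modEq_iff_dvd' (Nat.le_add_right s D)).1 h'
    simpa using this
  have zper : ∀ s, z (s + (k + 4)) = z s := fun s => by
    apply Fin.ext
    simp [z]
  have key : ∀ u v : Fin (k + 4), u ≠ v →
      (A φ n a (e u) (e v) ↔ v = u + 1 ∨ u = v + 1) := fun u v h => by
    have g1 := e.map_rel_iff (a := u) (b := v)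
    have g2 : (e u).val ≠ (e v).val := fun h' => h (e.injective (Fin.ext h'))
    rw [SimpleGraph.cycleGraph_adj, sub_eq_iff_eq_add', sub_eq_iff_eq_add'] at g1
    simp only [gr] at g1
    constructor
    · exact fun h' => (g1.1 ⟨g2, h'⟩).symm
    · exact fun h' => (g1.2 h'.symm).2
  have dne : ∀ s D, 0 < D → D < 4 → z s ≠ z (s + D) := fun s D l1 l2 h => by
    have := Nat.le_of_dvd l1 (zinj s D h)
    omega
  have s1 : ∀ s, A φ n a (e (z s)) (e (z (s + 1))) := fun s =>
    (key _ _ (dne s 1 (by omega) (by omega))).2 (Or.inl (hz s))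
  have s2 : ∀ s, ¬A φ n a (e (z s)) (e (z (s + 2))) := fun s h => by
    rcases (key _ _ (dne s 2 (by omega) (by omega))).1 h with h | h
    · rw [← hz] at h
      exact dne (s + 1) 1 (by omega) (by omega) h.symm
    · rw [← hz] at h
      exact dne s 3 (by omega) (by omega) h
  let H : ℕ → ℕ := fun s => (e (z s)).val / (2 * n) % (a + 2)
  have n1 : ∀ s, H s ≤ a + 1 := fun s => Nat.lt_succ_iff.1 (Nat.mod_lt _ (by omega))
  have tri := fun s => R.same ha (s1 s) (s1 (s + 1)) (s2 s) (n1 s) (n1 (s + 1)) (n1 (s + 2))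
  have n2 : ∀ s, H (s + 1) = H s ∨ H (s + 1) = H s + 1 ∨ H s = H (s + 1) + 1 := fun s => by
    rcases (s1 s).2.2 with h | h | h
    · exact Or.inl h.1.symm
    · exact Or.inr (Or.inl h.1)
    · exact Or.inr (Or.inr h.1)
  obtain ⟨s, D, hD, t1, t2, t3⟩ := heights H n1 n2 (fun s => (tri s).1) (fun s => (tri s).2.1)
    (fun s => (tri s).2.2)
  have after : ∀ p, H p = a + 1 → H (p + 1) = a := fun p hp => by
    have := n1 (p + 1)
    have := n2 p
    have : H (p + 1) = H p → H p = 0 := (tri p).1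
    omega
  have eq : z s = z (s + D) := by
    by_contra hne
    have act1 := (s1 s).1
    have act2 := (s1 (s + D)).1
    have hA : A φ n a (e (z s)) (e (z (s + D))) := by
      refine ⟨act1, act2, Or.inl ⟨t1.trans t2.symm, ?_⟩⟩
      unfold Act at act1 act2
      change (if H s = 0 then _ else if H s = a + 1 then _ else _) at act1
      change (if H (s + D) = 0 then _ else if H (s + D) = a + 1 then _ else _) at act2
      rw [if_neg (by omega), if_pos t1] at act1
      rw [if_neg (by omega), if_pos t2] at act2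
      exact act1.1.trans act2.1.symm
    rcases (key _ _ hne).1 hA with h | h
    · rw [← hz] at h
      have e1 : H (s + D) = H (s + 1) := by simp only [H, h]
      have := after s t1
      omega
    · rw [← hz] at h
      have e1 : H s = H (s + D + 1) := by simp only [H, h]
      have := after _ t2
      omega
  have hle := Nat.le_of_dvd (by omega) (zinj s D eq)
  have e1 : H (s + (k + 4)) = H s := by simp only [H, zper]
  have := t3 (k + 4) (by omega) (by omega)
  omega

end Pool.Agent.Work.MP_f5610a_lc.Hedge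
end

-- merged part: Pool.Agent.Work.MP_f5610a_lc.Hedge.Colour
section
namespace Pool.Agent.Work.MP_f5610a_lc.Hedge

open Pool.Agent.Lib.Cx Pool.Agent.Work.MP_f5610a_lc

theorem ty_succ {φ : CNF} {n a j t c : ℕ} : Ty φ n a j (t + 1) c ↔ ¬Ty φ n a j t c := by
  unfold Ty
  have : (a + (t + 1)) % 2 = 0 ↔ ¬(a + t) % 2 = 0 := by omega
  rw [this]
  tauto

theorem getD_eq (φ : CNF) (i : ℕ) (hi : i < φ.length) : φ.getD i [] = φ[i] := by
  rw [List.getD_eq_getElem?_getD, List.getElem?_eq_getElem hi]; rfl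

theorem sat_of_col {φ : CNF} {n a : ℕ} (ha : 1 ≤ a) (hn : 0 < n)
    (col : ℕ → ℕ → Fin (2 * n) → Fin (2 * n))
    (hcol : ∀ j < n + φ.length, ∀ t ≤ a + 1, ∀ c : Fin (2 * n), ∀ j' < n + φ.length,
      ∀ t' ≤ a + 1, ∀ c' : Fin (2 * n), R φ n a j t c j' t' c' → (t = t' → c ≠ c') →
        col j t c ≠ col j' t' c') :
    ∃ α : ℕ → Bool, ∀ c ∈ φ, ∃ l ∈ c, α l.1 = l.2 := by
  classical
  have h0 : 0 < n + φ.length := by omega
  have act0 : ∀ c, Act φ n a 0 0 c := fun c => by unfold Act; rw [if_pos rfl]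
  have pinj : Function.Injective (col 0 0) := fun c c' h => by
    by_contra hne
    exact hcol 0 h0 0 (by omega) c 0 h0 0 (by omega) c'
      ⟨act0 _, act0 _, Or.inl ⟨rfl, rfl⟩⟩ (fun _ => hne) h
  have psurj : Function.Surjective (col 0 0) := Finite.injective_iff_surjective.1 pinj
  choose σ hσ using psurj
  have σp : ∀ c, σ (col 0 0 c) = c := fun c => pinj (hσ _)
  let J : ℕ → ℕ → ℕ := fun j t => if t = 0 then 0 else j
  have hJ : ∀ j < n + φ.length, ∀ t, J j t < n + φ.length := fun j hj t => by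
    simp only [J]; split_ifs <;> omega
  have actJ : ∀ j t c, t < a → Ty φ n a j t c → Act φ n a (J j t) t c := fun j t c ht h => by
    unfold Act
    by_cases e : t = 0
    · simp [J, e]
    · rw [if_neg e, if_neg (by omega), if_neg (by omega)]
      simpa [J, e] using h
  have upJ : ∀ j t c, t < a → Ty φ n a j t c → Up φ n a (J j t) t c j := fun j t c ht h => by
    unfold Up
    by_cases e : t = 0
    · rw [if_pos e]; rwa [e] at h
    · rw [if_neg e, if_neg (by omega)]
      simp [J, e]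
  have next : ∀ j < n + φ.length, ∀ t < a,
      (∀ c : Fin (2 * n), Ty φ n a j t c → ∃ c' : Fin (2 * n), Ty φ n a j t c' ∧
        col (J j t) t c' = col 0 0 c) →
      ∀ c : Fin (2 * n), Act φ n a j (t + 1) c → Ty φ n a j (t + 1) (σ (col j (t + 1) c)) := by
    intro j hj t ht P c hc
    rw [ty_succ]
    intro hT
    obtain ⟨c', h1, h2⟩ := P _ hT
    rw [hσ] at h2
    exact hcol _ (hJ j hj t) t (by omega) c' j hj (t + 1) (by omega) c
      ⟨actJ _ _ _ ht h1, hc, Or.inr (Or.inl ⟨rfl, upJ _ _ _ ht h1⟩)⟩ (fun h => by omega) h2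
  have force : ∀ j < n + φ.length, ∀ t < a, ∀ c : Fin (2 * n), Ty φ n a j t c →
      ∃ c' : Fin (2 * n), Ty φ n a j t c' ∧ col (J j t) t c' = col 0 0 c := by
    intro j hj t
    induction t with
    | zero => exact fun _ c hc => ⟨c, hc, by simp [J]⟩
    | succ t ih =>
      intro ht c hc
      have eJ : J j (t + 1) = j := by simp [J]
      have act : ∀ c : Fin (2 * n), Ty φ n a j (t + 1) c → Act φ n a j (t + 1) c := fun c h => by
        have := actJ j (t + 1) c ht h
        rwa [eJ] at this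
      let g : {c : Fin (2 * n) // Ty φ n a j (t + 1) c} → {c : Fin (2 * n) // Ty φ n a j (t + 1) c} :=
        fun c => ⟨σ (col j (t + 1) c.1), next j hj t (by omega) (ih (by omega)) c.1 (act _ c.2)⟩
      have ginj : Function.Injective g := fun c c' h => by
        by_contra hne
        have h1 : σ (col j (t + 1) c.1) = σ (col j (t + 1) c'.1) := congrArg Subtype.val h
        have h2 : col j (t + 1) c.1 = col j (t + 1) c'.1 := by
          rw [← hσ (col j (t + 1) c.1), h1, hσ]
        exact hcol j hj (t + 1) (by omega) c.1 j hj (t + 1) (by omega) c'.1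
          ⟨act _ c.2, act _ c'.2, Or.inl ⟨rfl, rfl⟩⟩ (fun _ e => hne (Subtype.ext e)) h2
      obtain ⟨c', h⟩ := Finite.injective_iff_surjective.1 ginj ⟨c, hc⟩
      have h1 : σ (col j (t + 1) c'.1) = c := congrArg Subtype.val h
      refine ⟨c'.1, c'.2, ?_⟩
      rw [eJ, ← h1, hσ]
  let q : Fin n → Fin (2 * n) := fun v => σ (col 0 (a + 1) ⟨2 * v, by omega⟩)
  have actQ : ∀ v : ℕ, Act φ n a 0 (a + 1) (2 * v) := fun v => by
    unfold Act
    rw [if_neg (by omega), if_pos rfl]
    omega
  have hit : ∀ j < n + φ.length, ∃ c : Fin (2 * n), InF φ n j c ∧ ∀ v, q v ≠ c := by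
    intro j hj
    obtain ⟨t, rfl⟩ : ∃ t, a = t + 1 := ⟨a - 1, by omega⟩
    have actw : Act φ n (t + 1) j (t + 1) 0 := by
      unfold Act
      rw [if_neg (by omega), if_neg (by omega), if_pos rfl]
    refine ⟨σ (col j (t + 1) ⟨0, by omega⟩), ?_, fun v h => ?_⟩
    · have := next j hj t (by omega) (force j hj t (by omega)) ⟨0, by omega⟩ actw
      exact this.2 (by omega)
    · have h2 : col 0 (t + 1 + 1) ⟨2 * v, by omega⟩ = col j (t + 1) ⟨0, by omega⟩ := by
        rw [← hσ (col j (t + 1) _), ← h, hσ]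
      refine hcol j hj (t + 1) (by omega) ⟨0, by omega⟩ 0 h0 (t + 1 + 1) le_rfl ⟨2 * v, by omega⟩
        ⟨actw, actQ v, Or.inr (Or.inl ⟨rfl, ?_⟩)⟩ (fun h => by omega) h2.symm
      unfold Up
      rw [if_neg (by omega), if_pos rfl]
      trivial
  have qinj : Function.Injective q := fun v v' h => by
    by_contra hne
    have h2 : col 0 (a + 1) ⟨2 * v, by omega⟩ = col 0 (a + 1) ⟨2 * v', by omega⟩ := by
      rw [← hσ (col 0 (a + 1) ⟨2 * v, _⟩)]
      exact (congrArg (col 0 0) h).trans (hσ _)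
    refine hcol 0 h0 (a + 1) le_rfl _ 0 h0 (a + 1) le_rfl _
      ⟨actQ v, actQ v', Or.inl ⟨rfl, rfl⟩⟩ (fun _ e => hne ?_) h2
    have := congrArg Fin.val e
    simp only at this
    exact Fin.ext (by omega)
  let r : Fin n → Fin n := fun v => ⟨(q v).val / 2, by have := (q v).2; omega⟩
  have rinj : Function.Injective r := fun v v' h => by
    by_contra hne
    have h1 : (q v).val / 2 = (q v').val / 2 := congrArg Fin.val h
    have h2 : (q v).val ≠ (q v').val := fun e => hne (qinj (Fin.ext e))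
    obtain ⟨c, hc, hq⟩ := hit (r v) (by have := (r v).2; omega)
    unfold InF at hc
    rw [if_pos (r v).2] at hc
    have h3 : (q v).val ≠ c.val := fun e => hq v (Fin.ext e)
    have h4 : (q v').val ≠ c.val := fun e => hq v' (Fin.ext e)
    change c.val / 2 = (q v).val / 2 at hc
    omega
  have rsurj := Finite.injective_iff_surjective.1 rinj
  refine ⟨fun v => decide (∀ u, (q u).val ≠ 2 * v), fun cl hcl => ?_⟩
  obtain ⟨i, hi, rfl⟩ := List.getElem_of_mem hcl
  obtain ⟨c, hc, hq⟩ := hit (n + i) (by omega)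
  unfold InF at hc
  rw [if_neg (by omega), Nat.add_sub_cancel_left, getD_eq φ i hi] at hc
  refine ⟨_, hc, ?_⟩
  simp only [decide_eq_decide]
  constructor
  · intro h
    obtain ⟨u, hu⟩ := rsurj ⟨c.val / 2, by have := c.2; omega⟩
    have h1 : (q u).val / 2 = c.val / 2 := congrArg Fin.val hu
    have h2 := h u
    have h3 : (q u).val ≠ c.val := fun e => hq u (Fin.ext e)
    omega
  · intro h u e
    exact hq u (Fin.ext (by omega))

theorem col_of_sat {φ : CNF} {n a : ℕ} (ha : 1 ≤ a) (hv : ∀ c ∈ φ, ∀ l ∈ c, l.1 < n)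
    (α : ℕ → Bool) (hα : ∀ c ∈ φ, ∃ l ∈ c, α l.1 = l.2) :
    ∃ col : ℕ → ℕ → ℕ → ℕ, (∀ j < n + φ.length, ∀ t, ∀ c < 2 * n, col j t c < 2 * n) ∧
      ∀ j < n + φ.length, ∀ t ≤ a + 1, ∀ c, ∀ j' < n + φ.length, ∀ t' ≤ a + 1, ∀ c',
        R φ n a j t c j' t' c' → (j = j' → t = t' → c ≠ c') → col j t c ≠ col j' t' c' := by
  classical
  have hw : ∀ j, ∃ w, j < n + φ.length →
      w < 2 * n ∧ InF φ n j w ∧ (α (w / 2) = true ↔ w % 2 = 0) := by
    intro j
    by_cases hj : j < n + φ.length
    swap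
    · exact ⟨0, fun h => absurd h hj⟩
    by_cases h : j < n
    · refine ⟨2 * j + (if α j then 0 else 1), fun _ => ?_⟩
      have e : (2 * j + (if α j then 0 else 1)) / 2 = j := by split_ifs <;> omega
      unfold InF
      rw [if_pos h, e]
      refine ⟨by split_ifs <;> omega, rfl, ?_⟩
      cases α j <;> simp
    · have hi : j - n < φ.length := by omega
      obtain ⟨⟨v, b⟩, hl, hb⟩ := hα _ (List.getElem_mem hi)
      have hlt := hv _ (List.getElem_mem hi) _ hl
      refine ⟨2 * v + (if b then 0 else 1), fun _ => ?_⟩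
      have e : (2 * v + (if b then 0 else 1)) / 2 = v := by split_ifs <;> omega
      have e' : decide ((2 * v + (if b then 0 else 1)) % 2 = 0) = b := by cases b <;> simp
      unfold InF
      rw [if_neg h, e, e', getD_eq φ _ hi]
      refine ⟨by simp only at hlt; split_ifs <;> omega, hl, ?_⟩
      simp only at hb
      rw [hb]
      cases b <;> simp
  choose w hw using hw
  let col : ℕ → ℕ → ℕ → ℕ := fun j t c =>
    if t = a + 1 then 2 * (c / 2) + (if α (c / 2) then 1 else 0) else if t = a then w j else c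
  have up : ∀ j t c, ∀ j' < n + φ.length, ∀ c', Act φ n a j t c → Act φ n a j' (t + 1) c' →
      Up φ n a j t c j' → j < n + φ.length → t ≤ a → col j t c ≠ col j' (t + 1) c' := by
    intro j t c j' hj' c' a1 a2 u hj ht
    simp only [col]
    unfold Act at a1 a2
    unfold Up at u
    have e0 : t ≠ a + 1 := by omega
    by_cases e1 : t = a
    · rw [if_neg e0, if_pos e1, if_pos (by omega)]
      intro h
      have h3 := (hw j hj).2.2
      have e : w j / 2 = c' / 2 := by split_ifs at h <;> omega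
      rw [e] at h3
      split_ifs at h with hb
      · have := h3.1 hb; omega
      · exact hb (h3.2 (by omega))
    · have hT : Ty φ n a j' t c := by
        by_cases z : t = 0
        · rw [if_pos z] at u; rwa [z]
        · rw [if_neg z, if_neg e1] at u
          rw [if_neg z, if_neg e0, if_neg e1, u] at a1
          exact a1
      rw [if_neg e0, if_neg e1, if_neg (by omega)]
      by_cases e2 : t + 1 = a
      · rw [if_pos e2]
        intro h
        have h3 := (hw j' hj').2.1
        rw [← h] at h3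
        have := hT.1 h3
        omega
      · rw [if_neg e2]
        rw [if_neg (by omega), if_neg (by omega), if_neg e2, ty_succ] at a2
        rintro rfl
        exact a2 hT
  refine ⟨col, fun j hj t c hc => ?_, fun j hj t ht c j' hj' t' ht' c' h hne => ?_⟩
  · have := (hw j hj).1
    simp only [col]
    split_ifs <;> omega
  · obtain ⟨a1, a2, h | h | h⟩ := h
    · obtain ⟨rfl, rfl⟩ := h
      have hc := hne rfl rfl
      simp only [col]
      unfold Act at a1 a2
      by_cases e0 : t = a + 1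
      · rw [if_neg (by omega), if_pos e0] at a1 a2
        rw [if_pos e0, if_pos e0]
        split_ifs <;> omega
      · rw [if_neg e0, if_neg e0]
        by_cases e1 : t = a
        · rw [if_neg (by omega), if_neg e0, if_pos e1] at a1 a2
          omega
        · rwa [if_neg e1, if_neg e1]
    · obtain ⟨rfl, u⟩ := h
      exact up j t c j' hj' c' a1 a2 u hj (by omega)
    · obtain ⟨rfl, u⟩ := h
      exact (up j' t' c' j hj c a2 a1 u hj' (by omega)).symm

theorem gr_colorable {φ : CNF} {n a : ℕ} (ha : 1 ≤ a) (hn : 0 < n)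
    (hv : ∀ c ∈ φ, ∀ l ∈ c, l.1 < n) :
    (gr φ n a (2 * n * ((a + 2) * (n + φ.length)))).Colorable (2 * n) ↔
      ∃ α : ℕ → Bool, ∀ c ∈ φ, ∃ l ∈ c, α l.1 = l.2 := by
  classical
  have hk : 0 < 2 * n := by omega
  constructor
  · rintro ⟨C⟩
    have hlt : ∀ j < n + φ.length, ∀ t ≤ a + 1, ∀ c < 2 * n,
        c + 2 * n * (t + (a + 2) * j) < 2 * n * ((a + 2) * (n + φ.length)) := by
      intro j hj t ht c hc
      have h1 : t + (a + 2) * j + 1 ≤ (a + 2) * (n + φ.length) := by
        have := Nat.mul_le_mul_left (a + 2) (show j + 1 ≤ n + φ.length from hj)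
        rw [Nat.mul_succ] at this
        omega
      have h2 := Nat.mul_le_mul_left (2 * n) h1
      rw [Nat.mul_succ] at h2
      omega
    have d1 : ∀ j t, ∀ c < 2 * n, (c + 2 * n * (t + (a + 2) * j)) % (2 * n) = c :=
      fun j t c hc => by rw [Nat.add_mul_mod_self_left, Nat.mod_eq_of_lt hc]
    have d0 : ∀ j t, ∀ c < 2 * n, (c + 2 * n * (t + (a + 2) * j)) / (2 * n) = t + (a + 2) * j :=
      fun j t c hc => by rw [Nat.add_mul_div_left _ _ hk, Nat.div_eq_of_lt hc, zero_add]
    have d2 : ∀ j, ∀ t ≤ a + 1, (t + (a + 2) * j) % (a + 2) = t :=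
      fun j t ht => by rw [Nat.add_mul_mod_self_left, Nat.mod_eq_of_lt (by omega)]
    have d3 : ∀ j, ∀ t ≤ a + 1, (t + (a + 2) * j) / (a + 2) = j :=
      fun j t ht => by
        rw [Nat.add_mul_div_left _ _ (by omega), Nat.div_eq_of_lt (by omega), zero_add]
    refine sat_of_col ha hn (fun j t c => if h : j < n + φ.length ∧ t ≤ a + 1 then
      C ⟨_, hlt j h.1 t h.2 c c.2⟩ else c) fun j hj t ht c j' hj' t' ht' c' h hne => ?_
    rw [dif_pos ⟨hj, ht⟩, dif_pos ⟨hj', ht'⟩]
    refine C.valid ⟨fun e => ?_, ?_⟩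
    · simp only at e
      have e1 := congrArg (· % (2 * n)) e
      have e2 := congrArg (fun x => x / (2 * n) % (a + 2)) e
      simp only [d1 _ _ _ c.2, d1 _ _ _ c'.2] at e1
      simp only [d0 _ _ _ c.2, d0 _ _ _ c'.2, d2 _ _ ht, d2 _ _ ht'] at e2
      exact hne e2 (Fin.ext e1)
    · unfold A
      simp only [d1 _ _ _ c.2, d1 _ _ _ c'.2, d0 _ _ _ c.2, d0 _ _ _ c'.2, d2 _ _ ht, d2 _ _ ht',
        d3 _ _ ht, d3 _ _ ht']
      exact h
  · rintro ⟨α, hα⟩
    obtain ⟨col, hb, hcol⟩ := col_of_sat ha hv α hα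
    have hj : ∀ i : Fin (2 * n * ((a + 2) * (n + φ.length))),
        i.val / (2 * n) / (a + 2) < n + φ.length := fun i =>
      Nat.div_lt_of_lt_mul (Nat.div_lt_of_lt_mul i.2)
    have ht : ∀ i : ℕ, i % (a + 2) ≤ a + 1 := fun i =>
      Nat.lt_succ_iff.1 (Nat.mod_lt _ (by omega))
    refine (SimpleGraph.colorable_iff_exists_bdd_nat_coloring _).2
      ⟨SimpleGraph.Coloring.mk (fun i => col (i.val / (2 * n) / (a + 2))
        (i.val / (2 * n) % (a + 2)) (i.val % (2 * n))) fun {i i'} h => ?_,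
        fun i => hb _ (hj i) _ _ (Nat.mod_lt _ hk)⟩
    refine hcol _ (hj i) _ (ht _) _ _ (hj i') _ (ht _) _ h.2 fun e1 e2 e3 => h.1 ?_
    have e4 : i.val / (2 * n) = i'.val / (2 * n) := by
      rw [← Nat.div_add_mod (i.val / (2 * n)) (a + 2), e1, e2, Nat.div_add_mod]
    rw [← Nat.div_add_mod i.val (2 * n), e4, e3, Nat.div_add_mod]

/-- The reduction on formulas, given a bound on the variables. -/
def red (a : ℕ) (p : CNF × ℕ) : List Bool :=
  code (2 * p.2 * ((a + 2) * (p.2 + p.1.length)))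
    (fun i j => decide (i ≠ j ∧ A p.1 p.2 a i j)) (2 * p.2).bits

theorem ls_red (a : ℕ) : LS (red a) := by
  unfold red code A R Up Act Ty InF
  fun_prop

theorem ls_nvar : LS nvar := by
  unfold nvar
  fun_prop

theorem hard (q : ℕ) (hq : 4 ≤ q) (he : Even q) (L : N68a2faeb.DecisionProblem)
    (hL : L ∈ N68a2faeb.NP) :
    ∃ f : List Bool → List Bool, N68a2faeb.IsPolyTime f ∧ ∀ x,
      ∃ (n : ℕ) (G : SimpleGraph (Fin n)) (k : ℕ), f x = encode G k ∧
        (∀ m : ℕ, 4 ≤ m → m ≠ q → m ≠ q + 1 → IsEmpty (SimpleGraph.cycleGraph m ↪g G)) ∧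
        (L x = true ↔ G.Colorable k) := by
  obtain ⟨b, hb⟩ := he
  obtain ⟨a, rfl⟩ : ∃ a, b = a + 1 := ⟨b - 1, by omega⟩
  have ha : 1 ≤ a := by omega
  obtain ⟨φ, hφ, -, h⟩ := cook_levin_ls L hL
  have hls : LS fun x => red a (φ x, nvar (φ x) + 1) :=
    LS.comp _ _ (ls_red a) (LS.pair hφ (LS.add (LS.comp _ _ ls_nvar hφ) (LS.const 1)))
  refine ⟨fun x => red a (φ x, nvar (φ x) + 1), hls.isPolyTime, fun x =>
    ⟨_, gr (φ x) (nvar (φ x) + 1) a
      (2 * (nvar (φ x) + 1) * ((a + 2) * (nvar (φ x) + 1 + (φ x).length))), 2 * (nvar (φ x) + 1),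
      (encode_eq _ _ _ fun i j => by simp [gr]).symm,
      fun m hm h1 h2 => gr_holes ha m hm (by omega) (by omega), ?_⟩⟩
  rw [h, gr_colorable ha (by omega) fun c hc l hl => (lt_nvar hc hl).trans (Nat.lt_succ_self _)]

end Pool.Agent.Work.MP_f5610a_lc.Hedge
end
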